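import Pool.Agent.Y60.Pg9
import Pool.Agent.Results.MP_dc7914_al.IsotypyDegrees

/-!
# The Jordan decomposition of Brauer characters fails for `PGL(2, q)`, `q` odd, and `ℓ = 2`

Here `𝐆 = PGL₂` has trivial, hence connected, centre, `G = PGL(2, q)` and `G* = SL(2, q)`.
-/

open scoped MatrixGroups
open Pool.Agent.H254R3.IN Pool.Agent.Y60

namespace Pool.Agent.Results.MP_7994d1_al.JordanFailsPGL2

/-- Let `F` be a finite field of odd order `q`, let `(ℂ, O, O / O.nonunits)` be a `2`-modular
system and `R` a set of representatives of the classes of semisimple elements of odd order of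
`SL(2, q)`. There are fewer irreducible `2`-modular Brauer characters of `PGL(2, q)` than pairs
`(s, μ)` with `s ∈ R` and `μ` a unipotent `2`-modular Brauer character of `C(s)`; so there is no
bijection between these two sets. -/
theorem result :
    (∃ O : ValuationSubring ℂ, (2 : ℂ) ∈ O.nonunits) ∧
    ∀ (F : Type) [Field F] [Finite F], Odd (Nat.card F) →
      ∀ O : ValuationSubring ℂ, (2 : ℂ) ∈ O.nonunits →
        ∀ R : Set SL(2, F), (∀ s ∈ R, IsSemisimpleOdd s) →
          (∀ s : SL(2, F), IsSemisimpleOdd s → ∃! r : SL(2, F), r ∈ R ∧ IsConj r s) →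
          Finite {φ : PGL(2, F) → ℂ // IsIBr 2 O φ} ∧
          Nat.card {φ : PGL(2, F) → ℂ // IsIBr 2 O φ} <
            Nat.card (Σ s : R,
              {μ : Subgroup.centralizer {s.1} → ℂ // IsUnipotentIBr O s.1 μ}) ∧
          IsEmpty ({φ : PGL(2, F) → ℂ // IsIBr 2 O φ} ≃
            Σ s : R, {μ : Subgroup.centralizer {s.1} → ℂ // IsUnipotentIBr O s.1 μ}) := by
  refine ⟨?_, fun F _ _ hF O hO R hR hR' => ?_⟩
  · have h := Pool.Agent.Results.MP_dc7914_al.IsotypyDegrees.exists_place 2
    exact_mod_cast h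
  · have hp : ((2 : ℕ) : ℂ) ∈ O.nonunits := by exact_mod_cast hO
    haveI : Finite PGL(2, F) := by
      unfold Matrix.ProjGenLinGroup
      infer_instance
    have h := jordan_fails hp hF R hR hR'
    refine ⟨ibr_finite (G := PGL(2, F)) hp, h, ⟨fun e => ?_⟩⟩
    exact absurd (Nat.card_congr e) h.ne

end Pool.Agent.Results.MP_7994d1_al.JordanFailsPGL2
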